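import Mathlib

/-!
# The composition of an open homomorphism and a semitopological isomorphism need not be
semitopological
-/

set_option autoImplicit false
set_option linter.style.haveILetI false

namespace Pool.Agent.Results.MP_c09033_al.Composition

open Topology Filter Equiv

universe u v

/-- A homomorphism `f : G → H` of topological groups is semitopological (with witness in the
universe `v`) if there are a topological group `G'`, an embedding `i` (isomorphism onto a subgroup
with the subspace topology) of `G` onto a normal subgroup of `G'` and an open continuous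
homomorphism `f' : G' → H` extending `f`. -/
def IsSemitopological {G H : Type u} [Group G] [TopologicalSpace G] [Group H] [TopologicalSpace H]
    (f : G →* H) : Prop :=
  ∃ (G' : Type v) (_ : Group G') (_ : TopologicalSpace G') (_ : IsTopologicalGroup G')
    (i : G →* G') (f' : G' →* H), IsEmbedding i ∧ i.range.Normal ∧
      Continuous f' ∧ IsOpenMap f' ∧ ∀ g, f' (i g) = f g

/-- the symmetric group on three letters -/
abbrev S : Type := Perm (Fin 3)

/-- The restricted direct power. -/
def KK : Subgroup (ℕ → S) where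
  carrier := {k | ∃ m, ∀ n, m ≤ n → k n = 1}
  one_mem' := ⟨0, fun _ _ => rfl⟩
  mul_mem' := by
    rintro a b ⟨m, hm⟩ ⟨m', hm'⟩
    refine ⟨max m m', fun n hn => ?_⟩
    rw [Pi.mul_apply, hm n (le_trans (le_max_left _ _) hn), hm' n (le_trans (le_max_right _ _) hn),
      one_mul]
  inv_mem' := by
    rintro a ⟨m, hm⟩
    refine ⟨m, fun n hn => ?_⟩
    rw [Pi.inv_apply, hm n hn, inv_one]

/-- `K` with the discrete topology -/
structure Kd : Type where
  /-- the element -/
  val : KK

instance : TopologicalSpace Kd := ⊥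
instance : DiscreteTopology Kd := ⟨rfl⟩

/-- the topology of pointwise convergence -/
@[reducible] def sig : TopologicalSpace KK :=
  TopologicalSpace.induced (fun k : KK => (k : ℕ → S)) (@Pi.topologicalSpace ℕ (fun _ => S) fun _ => ⊥)

theorem nhds_sig (k : KK) (U : Set KK) :
    U ∈ @nhds KK sig k ↔ ∃ m : ℕ, ∀ k' : KK, (∀ n, n < m → k'.1 n = k.1 n) → k' ∈ U := by
  letI : TopologicalSpace S := ⊥
  haveI : DiscreteTopology S := ⟨rfl⟩
  have h0 : @nhds KK sig k = Filter.comap (fun k : KK => (k : ℕ → S)) (𝓝 (k : ℕ → S)) :=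
    nhds_induced _ _
  rw [h0, Filter.mem_comap]
  constructor
  · rintro ⟨V, hV, hVU⟩
    rw [nhds_pi, Filter.mem_pi] at hV
    obtain ⟨I, hI, t, ht, htV⟩ := hV
    obtain ⟨m, hm⟩ := hI.bddAbove
    refine ⟨m + 1, fun k' hk' => hVU (htV ?_)⟩
    intro n hn
    have h1 : k'.1 n = k.1 n := hk' n (Nat.lt_succ_of_le (hm hn))
    show k'.1 n ∈ t n
    rw [h1]
    exact mem_of_mem_nhds (ht n)
  · rintro ⟨m, hm⟩
    refine ⟨{f | ∀ n, n < m → f n = k.1 n}, ?_, fun k' hk' => hm k' hk'⟩
    have : {f : ℕ → S | ∀ n, n < m → f n = k.1 n} =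
        (Set.Iio m).pi (fun n => ({k.1 n} : Set S)) := by
      ext f
      simp [Set.mem_pi]
    rw [this]
    apply set_pi_mem_nhds (Set.finite_Iio m)
    intro n _
    exact (isOpen_discrete _).mem_nhds rfl

theorem sig_group : @IsTopologicalGroup KK sig _ := by
  letI : TopologicalSpace S := ⊥
  haveI : DiscreteTopology S := ⟨rfl⟩
  haveI : IsTopologicalGroup S :=
    { continuous_mul := continuous_of_discreteTopology
      continuous_inv := continuous_of_discreteTopology }
  exact topologicalGroup_induced KK.subtype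

/-- `K` with the topology `sig`. -/
def Ks : Type := KK

instance : Group Ks := inferInstanceAs (Group KK)
instance : TopologicalSpace Ks := sig
instance : IsTopologicalGroup Ks := sig_group

/-- The identical map. -/
def us (h : Ks) : KK := h

/-- The identical map. -/
def mks (h : KK) : Ks := h

/-- The elements of `K` far from the support of `k` commute with `k`. -/
theorem exists_comm (k : KK) : ∃ m : ℕ, ∀ h : KK, (∀ n, n < m → h.1 n = 1) → h * k = k * h := by
  obtain ⟨m, hm⟩ := k.2
  refine ⟨m, fun h hh => ?_⟩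
  apply Subtype.ext
  funext n
  show h.1 n * k.1 n = k.1 n * h.1 n
  rcases lt_or_ge n m with h1 | h1
  · rw [hh n h1, one_mul, mul_one]
  · rw [hm n h1, one_mul, mul_one]

/-- The action of `(K, sig)` on the discrete group `K` by conjugation is continuous. -/
theorem continuous_conj : Continuous fun t : Ks × Kd =>
    (⟨us t.1 * t.2.val * (us t.1)⁻¹⟩ : Kd) := by
  rw [continuous_iff_continuousAt]
  rintro ⟨h, k⟩
  obtain ⟨m, hm⟩ := exists_comm k.val
  have h1 : {h' : Ks | ∀ n, n < m → (us h').1 n = (us h).1 n} ∈ 𝓝 h :=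
    (nhds_sig h _).mpr ⟨m, fun k' hk' => hk'⟩
  have h2 : {h' : Ks | ∀ n, n < m → (us h').1 n = (us h).1 n} ×ˢ ({k} : Set Kd) ∈
      𝓝 ((h, k) : Ks × Kd) := prod_mem_nhds h1 ((isOpen_discrete _).mem_nhds rfl)
  have hev : ∀ᶠ t in 𝓝 ((h, k) : Ks × Kd),
      (⟨us h * k.val * (us h)⁻¹⟩ : Kd) = ⟨us t.1 * t.2.val * (us t.1)⁻¹⟩ := by
    filter_upwards [h2]
    rintro ⟨h', k'⟩ ⟨hh, hk⟩
    have hk' : k' = k := hk
    subst hk'
    have h3 : ((us h)⁻¹ * us h') * k'.val = k'.val * ((us h)⁻¹ * us h') := by
      apply hm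
      intro n hn
      have h4 : (us h').1 n = (us h).1 n := hh n hn
      show ((us h).1 n)⁻¹ * (us h').1 n = 1
      rw [h4, inv_mul_cancel]
    show (⟨us h * k'.val * (us h)⁻¹⟩ : Kd) = ⟨us h' * k'.val * (us h')⁻¹⟩
    congr 1
    have h5 : us h' * k'.val * (us h')⁻¹ =
        us h * (((us h)⁻¹ * us h') * k'.val) * (us h')⁻¹ := by group
    rw [h5, h3]
    group
  exact tendsto_const_nhds.congr' hev

/-- The group `K × K` with the topology of the semidirect product of the discrete group `K` and of
`(K, sig)`. -/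
def Kt : Type := KK × KK

instance : Group Kt := inferInstanceAs (Group (KK × KK))

/-- The coordinates of the semidirect product. -/
def crd (t : Kt) : Kd × Ks := (⟨t.1 * t.2⁻¹⟩, mks t.2)

/-- Pairs as elements of `Kt`. -/
def mkt (a b : KK) : Kt := (a, b)

instance : TopologicalSpace Kt := TopologicalSpace.induced crd inferInstance

theorem continuous_crd : Continuous crd := continuous_induced_dom

/-- multiplication of the discrete group -/
def dmul (t : Kd × Kd) : Kd := ⟨t.1.val * t.2.val⟩

/-- inversion in the discrete group -/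
def dinv (t : Kd) : Kd := ⟨t.val⁻¹⟩

theorem continuous_into {T : Type*} [TopologicalSpace T] {g : T → Kt}
    (h1 : Continuous fun t => (⟨(g t).1 * (g t).2⁻¹⟩ : Kd))
    (h2 : Continuous fun t => mks (g t).2) : Continuous g :=
  continuous_induced_rng.mpr (h1.prodMk h2)

instance : IsTopologicalGroup Kt where
  continuous_mul := by
    have hm : Continuous dmul := continuous_of_discreteTopology
    have h1 : Continuous fun t : Kt × Kt => (crd t.1).1 :=
      continuous_fst.comp (continuous_crd.comp continuous_fst)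
    have h2 : Continuous fun t : Kt × Kt => (crd t.1).2 :=
      continuous_snd.comp (continuous_crd.comp continuous_fst)
    have h3 : Continuous fun t : Kt × Kt => (crd t.2).1 :=
      continuous_fst.comp (continuous_crd.comp continuous_snd)
    have h4 : Continuous fun t : Kt × Kt => (crd t.2).2 :=
      continuous_snd.comp (continuous_crd.comp continuous_snd)
    apply continuous_into
    · have h5 := hm.comp (h1.prodMk (continuous_conj.comp (h2.prodMk h3)))
      refine h5.congr fun t => ?_
      show (⟨(t.1.1 * t.1.2⁻¹) * (t.1.2 * (t.2.1 * t.2.2⁻¹) * (t.1.2)⁻¹)⟩ : Kd) =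
        ⟨(t.1.1 * t.2.1) * (t.1.2 * t.2.2)⁻¹⟩
      congr 1
      group
    · exact h2.mul h4
  continuous_inv := by
    have hi : Continuous dinv := continuous_of_discreteTopology
    have h1 : Continuous fun t : Kt => (crd t).1 := continuous_fst.comp continuous_crd
    have h2 : Continuous fun t : Kt => (crd t).2 := continuous_snd.comp continuous_crd
    apply continuous_into
    · have h5 := hi.comp (continuous_conj.comp (h2.inv.prodMk h1))
      refine h5.congr fun t => ?_
      show (⟨((t.2)⁻¹ * (t.1 * t.2⁻¹) * ((t.2)⁻¹)⁻¹)⁻¹⟩ : Kd) = ⟨t.1⁻¹ * (t.2⁻¹)⁻¹⟩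
      congr 1
      group
    · exact h2.inv

instance : Group Kd where
  mul a b := ⟨a.val * b.val⟩
  one := ⟨1⟩
  inv a := ⟨a.val⁻¹⟩
  mul_assoc a b c := congrArg Kd.mk (mul_assoc a.val b.val c.val)
  one_mul a := congrArg Kd.mk (one_mul a.val)
  mul_one a := congrArg Kd.mk (mul_one a.val)
  inv_mul_cancel a := congrArg Kd.mk (inv_mul_cancel a.val)

instance : IsTopologicalGroup Kd where
  continuous_mul := continuous_of_discreteTopology
  continuous_inv := continuous_of_discreteTopology

/-- The identical isomorphism of the discrete group `K` onto `(K, sig)`. -/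
def f2 : Kd →* Ks where
  toFun a := a.val
  map_one' := rfl
  map_mul' _ _ := rfl

theorem f2_bijective : Function.Bijective f2 :=
  ⟨fun _ _ h => congrArg Kd.mk h, fun k => ⟨⟨k⟩, rfl⟩⟩

theorem f2_semitopological : IsSemitopological.{0, 0} f2 := by
  let i : Kd →* Kt :=
    { toFun := fun a => (a.val, 1)
      map_one' := rfl
      map_mul' := fun a b => Prod.ext rfl (one_mul 1).symm }
  let f' : Kt →* Ks :=
    { toFun := fun t => t.1
      map_one' := rfl
      map_mul' := fun _ _ => rfl }
  refine ⟨Kt, inferInstance, inferInstance, inferInstance, i, f', ?_, ?_, ?_, ?_, fun _ => rfl⟩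
  · refine ⟨⟨?_⟩, ?_⟩
    · apply le_antisymm
      · rw [← continuous_iff_le_induced]
        exact continuous_of_discreteTopology
      · -- the induced topology is discrete
        intro U _
        rw [isOpen_induced_iff]
        refine ⟨crd ⁻¹' (U ×ˢ Set.univ), ?_, ?_⟩
        · exact ((isOpen_discrete U).prod isOpen_univ).preimage continuous_crd
        · ext a
          have h1 : (crd (i a)).1 = a := by
            show (⟨a.val * 1⁻¹⟩ : Kd) = a
            rw [inv_one, mul_one]
          show ((crd (i a)).1 ∈ U ∧ (crd (i a)).2 ∈ Set.univ) ↔ a ∈ U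
          rw [h1]
          simp
    · intro a b h
      exact congrArg Kd.mk (congrArg Prod.fst h)
  · constructor
    rintro _ ⟨a, rfl⟩ g
    refine ⟨⟨g.1 * a.val * g.1⁻¹⟩, ?_⟩
    apply Prod.ext
    · rfl
    · show (1 : KK) = g.2 * 1 * g.2⁻¹
      group
  · have h1 : Continuous fun t : Kt => (crd t).1 := continuous_fst.comp continuous_crd
    have h2 : Continuous fun t : Kt => (crd t).2 := continuous_snd.comp continuous_crd
    have h3 : Continuous fun a : Kd => (f2 a : Ks) := continuous_of_discreteTopology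
    have h4 := (h3.comp h1).mul h2
    refine h4.congr fun t => ?_
    show (t.1 * t.2⁻¹) * t.2 = t.1
    group
  · intro U hU
    rw [isOpen_iff_mem_nhds]
    rintro _ ⟨t, ht, rfl⟩
    -- a continuous section through `t`
    have hs : Continuous fun a : Ks => mkt (us a) ((t.1 * t.2⁻¹)⁻¹ * us a) := by
      apply continuous_into
      · refine (continuous_const (y := (⟨t.1 * t.2⁻¹⟩ : Kd))).congr fun a => ?_
        show (⟨t.1 * t.2⁻¹⟩ : Kd) = ⟨us a * ((t.1 * t.2⁻¹)⁻¹ * us a)⁻¹⟩
        congr 1
        group
      · show Continuous fun a : Ks => (mks (t.1 * t.2⁻¹)⁻¹) * a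
        exact continuous_const.mul continuous_id
    have h1 := (hU.preimage hs).mem_nhds (x := mks t.1) (by
      show mkt t.1 ((t.1 * t.2⁻¹)⁻¹ * t.1) ∈ U
      have : mkt t.1 ((t.1 * t.2⁻¹)⁻¹ * t.1) = t := by
        apply Prod.ext
        · rfl
        · show (t.1 * t.2⁻¹)⁻¹ * t.1 = t.2
          group
      rw [this]
      exact ht)
    exact Filter.mem_of_superset h1 (fun a ha => ⟨_, ha, rfl⟩)

/-- The subgroup of the elements all whose coordinates fix the last letter. -/
def BB : Subgroup KK where
  carrier := {k | ∀ n, k.1 n 2 = 2}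
  one_mem' := fun _ => rfl
  mul_mem' := by
    intro a b ha hb n
    show a.1 n (b.1 n 2) = 2
    rw [hb n, ha n]
  inv_mem' := by
    intro a ha n
    show (a.1 n)⁻¹ 2 = 2
    rw [Perm.inv_eq_iff_eq]
    exact (ha n).symm

/-- The group `G`, to be considered with the discrete topology. -/
abbrev G0 : Type := (KK ⧸ BB → ℤˣ) ⋊[mulAutArrow] KK

/-- `G` with the discrete topology. -/
def Gd : Type := G0

instance : Group Gd := inferInstanceAs (Group G0)
instance : TopologicalSpace Gd := ⊥
instance : DiscreteTopology Gd := ⟨rfl⟩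
instance : IsTopologicalGroup Gd where
  continuous_mul := continuous_of_discreteTopology
  continuous_inv := continuous_of_discreteTopology

/-- The projection. -/
def f1 : Gd →* Kd where
  toFun g := ⟨SemidirectProduct.right (g : G0)⟩
  map_one' := rfl
  map_mul' _ _ := rfl

theorem f1_surjective : Function.Surjective f1 := by
  intro k
  exact ⟨(SemidirectProduct.inr k.val : G0), rfl⟩

open Classical in
/-- The function which is `-1` at the trivial coset and `1` elsewhere. -/
noncomputable def del : KK ⧸ BB → ℤˣ := fun x => if x = ((1 : KK) : KK ⧸ BB) then -1 else 1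

/-- The corresponding element of `G`. -/
noncomputable def dd : Gd := (SemidirectProduct.inl del : G0)

/-- The elements of `G` that commute with `dd`. -/
theorem comm_iff (g : Gd) : g * dd = dd * g ↔ (f1 g).val ∈ BB := by
  have h1 : ((g * dd : Gd) : G0).right = ((dd * g : Gd) : G0).right := by
    show (g : G0).right * 1 = 1 * (g : G0).right
    rw [one_mul, mul_one]
  have h2 : g * dd = dd * g ↔ ((g * dd : Gd) : G0).left = ((dd * g : Gd) : G0).left := by
    constructor
    · intro h; rw [h]
    · intro h; exact SemidirectProduct.ext h h1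
  rw [h2]
  have h3 : ((g * dd : Gd) : G0).left =
      (g : G0).left * (fun x => del ((g : G0).right⁻¹ • x)) := rfl
  have h4 : ((dd * g : Gd) : G0).left = (g : G0).left * del := by
    have : ((dd * g : Gd) : G0).left = del * mulAutArrow (1 : KK) (g : G0).left := rfl
    rw [this, map_one, mul_comm]
    rfl
  rw [h3, h4, mul_right_inj]
  constructor
  · intro h
    have h5 := congrFun h ((g : G0).right : KK ⧸ BB)
    have h6 : (g : G0).right⁻¹ • (((g : G0).right : KK) : KK ⧸ BB) = ((1 : KK) : KK ⧸ BB) := by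
      rw [MulAction.Quotient.smul_coe, smul_eq_mul, inv_mul_cancel]
    simp only [h6] at h5
    rw [del, del, if_pos rfl] at h5
    by_cases h7 : (((g : G0).right : KK) : KK ⧸ BB) = ((1 : KK) : KK ⧸ BB)
    · rw [eq_comm, QuotientGroup.eq, inv_one, one_mul] at h7
      exact h7
    · rw [if_neg h7] at h5
      exact absurd h5 (by decide)
  · intro h
    funext x
    have h5 : (g : G0).right⁻¹ • x = ((1 : KK) : KK ⧸ BB) ↔ x = ((1 : KK) : KK ⧸ BB) := by
      rw [inv_smul_eq_iff, MulAction.Quotient.smul_coe, smul_eq_mul, mul_one]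
      have h6 : (((g : G0).right : KK) : KK ⧸ BB) = ((1 : KK) : KK ⧸ BB) := by
        rw [eq_comm, QuotientGroup.eq, inv_one, one_mul]
        exact h
      rw [h6]
    show del ((g : G0).right⁻¹ • x) = del x
    by_cases h6 : x = ((1 : KK) : KK ⧸ BB)
    · rw [del, del, if_pos h6, if_pos (h5.mpr h6)]
    · rw [del, del, if_neg h6, if_neg (fun h7 => h6 (h5.mp h7))]

/-- The element of `K` with one nontrivial coordinate. -/
def one_at (m : ℕ) (s : S) : KK := ⟨Pi.mulSingle m s, m + 1, fun n hn => by
  rw [Pi.mulSingle_eq_of_ne (by omega)]⟩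

theorem not_semitopological : ¬ IsSemitopological.{0, v} (f2.comp f1) := by
  rintro ⟨G', _, _, _, i, f', hi, hn, hf'c, hf'o, hff⟩
  -- a neighbourhood
  obtain ⟨O, hO, hOi⟩ : ∃ O ∈ 𝓝 (1 : G'), ∀ g : Gd, i g ∈ O → g = 1 := by
    have h1 : ({1} : Set Gd) ∈ 𝓝 (1 : Gd) := (isOpen_discrete _).mem_nhds rfl
    rw [hi.nhds_eq_comap, map_one, Filter.mem_comap] at h1
    obtain ⟨O, hO, h⟩ := h1
    exact ⟨O, hO, fun g hg => h hg⟩
  let c : G' := i dd
  have hP : {x : G' | x * c * x⁻¹ * c⁻¹ ∈ O} ∈ 𝓝 (1 : G') := by
    have h1 : Continuous fun x : G' => x * c * x⁻¹ * c⁻¹ := by fun_prop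
    apply h1.continuousAt.preimage_mem_nhds
    simpa using hO
  have hcomm : ∀ x : G', x * c * x⁻¹ * c⁻¹ ∈ O → x * c = c * x := by
    intro x hx
    have h1 : x * c * x⁻¹ * c⁻¹ ∈ i.range :=
      i.range.mul_mem (hn.conj_mem _ ⟨dd, rfl⟩ x) (i.range.inv_mem ⟨dd, rfl⟩)
    obtain ⟨g, hg⟩ := h1
    have h2 : g = 1 := hOi g (by rw [hg]; exact hx)
    rw [h2, map_one] at hg
    have h3 : x * c * x⁻¹ = c := (mul_inv_eq_one.mp hg.symm)
    exact mul_inv_eq_iff_eq_mul.mp h3
  have him := hf'o.image_mem_nhds hP
  rw [map_one] at him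
  obtain ⟨m, hm⟩ := (nhds_sig 1 _).mp him
  -- the element `t`
  obtain ⟨x, hx, hxt⟩ := hm (one_at m (swap 1 2)) (fun n hn => Pi.mulSingle_eq_of_ne hn.ne _)
  let s : Gd := (SemidirectProduct.inr (one_at m (swap 0 1)) : G0)
  have hs : (f1 s).val ∈ BB := by
    intro n
    show (Pi.mulSingle m (swap 0 1) : ℕ → S) n 2 = 2
    by_cases h : n = m
    · subst h
      rw [Pi.mulSingle_eq_same]
      decide
    · rw [Pi.mulSingle_eq_of_ne h]
      rfl
  have hsc : i s * c = c * i s := by
    show i s * i dd = i dd * i s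
    rw [← map_mul, ← map_mul, (comm_iff s).mpr hs]
  have hxc := hcomm x hx
  obtain ⟨g, hg⟩ : x * i s * x⁻¹ ∈ i.range := hn.conj_mem _ ⟨s, rfl⟩ x
  have hgc : g * dd = dd * g := by
    apply hi.injective
    rw [map_mul, map_mul, hg]
    show x * i s * x⁻¹ * c = c * (x * i s * x⁻¹)
    have h1 : x⁻¹ * c = c * x⁻¹ := by
      rw [inv_mul_eq_iff_eq_mul, ← mul_assoc, hxc, mul_assoc, mul_inv_cancel, mul_one]
    calc x * i s * x⁻¹ * c = x * i s * (x⁻¹ * c) := by group
      _ = x * (i s * c) * x⁻¹ := by rw [h1]; group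
      _ = (x * c) * (i s * x⁻¹) := by rw [hsc]; group
      _ = c * (x * i s * x⁻¹) := by rw [hxc]; group
  have hgB := (comm_iff g).mp hgc
  have hfg : (f1 g).val = one_at m (swap 1 2) * one_at m (swap 0 1) * (one_at m (swap 1 2))⁻¹ := by
    have h1 : f' (i g) = (f1 g).val := hff g
    have h2 : f' (i s) = (f1 s).val := hff s
    rw [hg, map_mul, map_mul, map_inv, hxt, h2] at h1
    exact h1.symm
  rw [hfg] at hgB
  have h1 := hgB m
  have h2 : ((one_at m (swap 1 2) * one_at m (swap 0 1) * (one_at m (swap 1 2))⁻¹ : KK)).1 m =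
      swap 1 2 * swap 0 1 * (swap 1 2)⁻¹ := by
    show (Pi.mulSingle m (swap 1 2) : ℕ → S) m * (Pi.mulSingle m (swap 0 1) : ℕ → S) m *
      ((Pi.mulSingle m (swap 1 2) : ℕ → S) m)⁻¹ = _
    rw [Pi.mulSingle_eq_same, Pi.mulSingle_eq_same]
  rw [h2] at h1
  exact absurd h1 (by decide)

/-- There are topological groups `G`, `K`, `H`, an open continuous surjective homomorphism
`f₁ : G → K` and a semitopological isomorphism `f₂ : K → H` such that `f₂ ∘ f₁` is not
semitopological, with an extension in any universe. -/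
theorem result : ∃ (G K H : Type) (_ : Group G) (_ : TopologicalSpace G) (_ : IsTopologicalGroup G)
    (_ : Group K) (_ : TopologicalSpace K) (_ : IsTopologicalGroup K)
    (_ : Group H) (_ : TopologicalSpace H) (_ : IsTopologicalGroup H)
    (f₁ : G →* K) (f₂ : K →* H), Continuous f₁ ∧ IsOpenMap f₁ ∧ Function.Surjective f₁ ∧
      Continuous f₂ ∧ Function.Bijective f₂ ∧ IsSemitopological.{0, 0} f₂ ∧
      ¬ IsSemitopological.{0, v} (f₂.comp f₁) :=
  ⟨Gd, Kd, Ks, inferInstance, inferInstance, inferInstance, inferInstance, inferInstance,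
    inferInstance, inferInstance, inferInstance, inferInstance, f1, f2,
    continuous_of_discreteTopology, fun _ _ => isOpen_discrete _, f1_surjective,
    continuous_of_discreteTopology, f2_bijective, f2_semitopological, not_semitopological⟩

end Pool.Agent.Results.MP_c09033_al.Composition
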